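import Pool.Agent.Lib.Enr905.Bridge

/-!
# Derived Torelli for Enriques surfaces in characteristic 2

An Enriques surface `X` over an algebraically closed field of characteristic 2 has the derived
Torelli property if it has a lift `l` over a complete discrete valuation ring `V` of characteristic 0
and, if `ω_X` is trivial, `V` is unramified or the parameter of the scheme `Pic^τ` of the lift is
not in the square of the maximal ideal: given the published theorems collected in `DualTheory`,
`EnriquesFacts`, `MatsusakaMumford`, `DefTheory`, `TateOort`, and derived Torelli in characteristic 0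
(Bridgeland-Maciocia).
-/

namespace Pool.Agent.Results.MP_905f26_ag.DerivedTorelli

open Pool.Agent.Lib.Enr905 IsLocalRing

theorem result (k : Type) [Field k] [IsAlgClosed k] [CharP k 2] (N : DualTheory k)
    (E : EnriquesFacts N) (mm : MatsusakaMumford k)
    (bm : ∀ (K : Type) [Field K] [IsAlgClosed K] [CharZero K], DerivedTorelli K (IsEnriques K))
    (X : Surf k) (hX : IsEnriques k X) (l : LiftData X) (D : DefTheory N l)
    (h : N.Triv X → ∃ a, TateOort D a ∧ (maximalIdeal l.V = Ideal.span {2} ∨ a ∉ l.I 1))
    (Y : Surf k) (hY : Nonempty (Surf.Equiv Y X)) : X.Iso Y := by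
  refine torelli_real E mm bm hX D ?_ hY
  by_cases h0 : N.Triv X
  · obtain ⟨a, ha, hl | h2⟩ := h h0
    · obtain ⟨b, hb⟩ := ha.1
      exact Or.inr ⟨h0, a, ha, not_mem_sq hb hl two_ne_zero⟩
    · exact Or.inr ⟨h0, a, ha, h2⟩
  · exact Or.inl h0

end Pool.Agent.Results.MP_905f26_ag.DerivedTorelli
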